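import Mathlib

namespace Pool.Agent.Results.MP_efcf90_co.Counter

/-- An additive poset: an abelian group with a partial order `le` satisfying (*) and (**). -/
def IsAddPoset {A : Type} [AddCommGroup A] (le : A → A → Prop) : Prop :=
  IsPartialOrder A le ∧ (∀ a b c, le b a → le c a → le (b + c) a) ∧
    ∀ a b c, le a b → le a c → le a (a + b + c)

/-- A rank of an additive poset. -/
def IsRank {A : Type} [AddCommGroup A] [DecidableEq A] (le : A → A → Prop) (r : A → ℕ) : Prop :=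
  (∀ a, r a = 0 ↔ a = 0) ∧ (∀ a b, le a (a + b) → r (a + b) = r a + r b) ∧
    ∀ K : Finset A, K.Nonempty →
      0 ≤ ∑ J ∈ K.powerset.erase ∅, (-1 : ℤ) ^ (J.card + 1) * r (∑ a ∈ J, a) ∧
      (2 : ℤ) ^ (K.card - 1) ∣ ∑ J ∈ K.powerset.erase ∅, (-1 : ℤ) ^ (J.card + 1) * r (∑ a ∈ J, a)

lemma four {A : Type} [AddCommGroup A] [DecidableEq A] (r : A → ℕ) (h0 : r 0 = 0)
    (h3 : ∀ K : Finset A, K.Nonempty →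
      0 ≤ ∑ J ∈ K.powerset.erase ∅, (-1 : ℤ) ^ (J.card + 1) * r (∑ a ∈ J, a))
    (a b c d : A) (h : a ≠ b ∧ a ≠ c ∧ a ≠ d ∧ b ≠ c ∧ b ≠ d ∧ c ≠ d) :
    0 ≤ 0 + (r (a) : ℤ) + (r (b) : ℤ) - (r (a + b) : ℤ) + (r (c) : ℤ) - (r (a + c) : ℤ) - (r (b + c) : ℤ) + (r (a + b + c) : ℤ) + (r (d) : ℤ) - (r (a + d) : ℤ) - (r (b + d) : ℤ) + (r (a + b + d) : ℤ) - (r (c + d) : ℤ) + (r (a + c + d) : ℤ) + (r (b + c + d) : ℤ) - (r (a + b + c + d) : ℤ) := by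
  obtain ⟨h1, h2, h4, h5, h6, h7⟩ := h
  have := h3 {a, b, c, d} (by simp)
  rw [Finset.sum_erase _ (by simp [h0])] at this
  have k1 : a ∉ ({b, c, d} : Finset A) := by simp [h1, h2, h4]
  have k2 : b ∉ ({c, d} : Finset A) := by simp [h5, h6]
  have k3 : c ∉ ({d} : Finset A) := by simp [h7]
  simp only [Finset.sum_powerset_insert k1, Finset.sum_powerset_insert k2,
    Finset.sum_powerset_insert k3] at this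
  have e : ({d} : Finset A).powerset = {∅, {d}} := by
    ext J; simp [Finset.subset_singleton_iff]
  have e2 : (∅ : Finset A) ≠ {d} := (Finset.singleton_ne_empty d).symm
  simp only [e, Finset.sum_pair e2] at this
  simp [h0, h1, h2, h4, h5, h6, h7, Finset.card_insert_of_notMem, Finset.sum_insert] at this
  simp only [add_assoc]
  norm_num at this
  linarith

abbrev A : Type := ZMod 2 × ZMod 2 × ZMod 2 × ZMod 2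

def v (n : ℕ) : A := ((n % 2 : ℕ), (n / 2 % 2 : ℕ), (n / 4 % 2 : ℕ), (n / 8 % 2 : ℕ))

def rel : List (A × A) := [(v 1, v 14), (v 4, v 9), (v 5, v 3), (v 6, v 3), (v 8, v 2), (v 10, v 2), (v 11, v 7), (v 12, v 7), (v 13, v 9), (v 15, v 14)]

def le (a b : A) : Prop := a = 0 ∨ a = b ∨ (a, b) ∈ rel

instance : DecidableRel le := fun a b => by unfold le; infer_instance

theorem result : ∃ (A : Type) (_ : AddCommGroup A) (_ : DecidableEq A) (_ : Finite A)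
    (le : A → A → Prop), IsAddPoset le ∧ ¬ ∃ r : A → ℕ, IsRank le r := by
  refine ⟨A, inferInstance, inferInstance, inferInstance, le,
    ⟨{ refl := by decide +kernel, trans := by decide +kernel, antisymm := by decide +kernel },
      by decide +kernel, by decide +kernel⟩, ?_⟩
  rintro ⟨r, h1, h2, h3'⟩
  have h0 : r 0 = 0 := (h1 0).2 rfl
  have h3 := fun K hK => (h3' K hK).1
  have hx : r (v 1) ≠ 0 := fun h => absurd ((h1 _).1 h) (by decide)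
  have w1 : 0 ≤ 0 + (r (v 1) : ℤ) + (r (v 3) : ℤ) - (r (v 2) : ℤ) + (r (v 5) : ℤ) - (r (v 4) : ℤ) - (r (v 6) : ℤ) + (r (v 7) : ℤ) + (r (v 9) : ℤ) - (r (v 8) : ℤ) - (r (v 10) : ℤ) + (r (v 11) : ℤ) - (r (v 12) : ℤ) + (r (v 13) : ℤ) + (r (v 15) : ℤ) - (r (v 14) : ℤ) :=
    four r h0 h3 (v 1) (v 3) (v 5) (v 9) (by decide)
  have w2 : 0 ≤ 0 + (r (v 2) : ℤ) + (r (v 3) : ℤ) - (r (v 1) : ℤ) + (r (v 6) : ℤ) - (r (v 4) : ℤ) - (r (v 5) : ℤ) + (r (v 7) : ℤ) + (r (v 10) : ℤ) - (r (v 8) : ℤ) - (r (v 9) : ℤ) + (r (v 11) : ℤ) - (r (v 12) : ℤ) + (r (v 14) : ℤ) + (r (v 15) : ℤ) - (r (v 13) : ℤ) :=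
    four r h0 h3 (v 2) (v 3) (v 6) (v 10) (by decide)
  have w3 : 0 ≤ 0 + (r (v 1) : ℤ) + (r (v 2) : ℤ) - (r (v 3) : ℤ) + (r (v 5) : ℤ) - (r (v 4) : ℤ) - (r (v 7) : ℤ) + (r (v 6) : ℤ) + (r (v 9) : ℤ) - (r (v 8) : ℤ) - (r (v 11) : ℤ) + (r (v 10) : ℤ) - (r (v 12) : ℤ) + (r (v 13) : ℤ) + (r (v 14) : ℤ) - (r (v 15) : ℤ) :=
    four r h0 h3 (v 1) (v 2) (v 5) (v 9) (by decide)
  have w4 : 0 ≤ 0 + (r (v 4) : ℤ) + (r (v 5) : ℤ) - (r (v 1) : ℤ) + (r (v 6) : ℤ) - (r (v 2) : ℤ) - (r (v 3) : ℤ) + (r (v 7) : ℤ) + (r (v 12) : ℤ) - (r (v 8) : ℤ) - (r (v 9) : ℤ) + (r (v 13) : ℤ) - (r (v 10) : ℤ) + (r (v 14) : ℤ) + (r (v 15) : ℤ) - (r (v 11) : ℤ) :=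
    four r h0 h3 (v 4) (v 5) (v 6) (v 12) (by decide)
  have w5 : 0 ≤ 0 + (r (v 1) : ℤ) + (r (v 3) : ℤ) - (r (v 2) : ℤ) + (r (v 4) : ℤ) - (r (v 5) : ℤ) - (r (v 7) : ℤ) + (r (v 6) : ℤ) + (r (v 9) : ℤ) - (r (v 8) : ℤ) - (r (v 10) : ℤ) + (r (v 11) : ℤ) - (r (v 13) : ℤ) + (r (v 12) : ℤ) + (r (v 14) : ℤ) - (r (v 15) : ℤ) :=
    four r h0 h3 (v 1) (v 3) (v 4) (v 9) (by decide)
  have w6 : 0 ≤ 0 + (r (v 2) : ℤ) + (r (v 3) : ℤ) - (r (v 1) : ℤ) + (r (v 4) : ℤ) - (r (v 6) : ℤ) - (r (v 7) : ℤ) + (r (v 5) : ℤ) + (r (v 10) : ℤ) - (r (v 8) : ℤ) - (r (v 9) : ℤ) + (r (v 11) : ℤ) - (r (v 14) : ℤ) + (r (v 12) : ℤ) + (r (v 13) : ℤ) - (r (v 15) : ℤ) :=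
    four r h0 h3 (v 2) (v 3) (v 4) (v 10) (by decide)
  have w7 : 0 ≤ 0 + (r (v 1) : ℤ) + (r (v 2) : ℤ) - (r (v 3) : ℤ) + (r (v 4) : ℤ) - (r (v 5) : ℤ) - (r (v 6) : ℤ) + (r (v 7) : ℤ) + (r (v 9) : ℤ) - (r (v 8) : ℤ) - (r (v 11) : ℤ) + (r (v 10) : ℤ) - (r (v 13) : ℤ) + (r (v 12) : ℤ) + (r (v 15) : ℤ) - (r (v 14) : ℤ) :=
    four r h0 h3 (v 1) (v 2) (v 4) (v 9) (by decide)
  have w8 : 0 ≤ 0 + (r (v 8) : ℤ) + (r (v 9) : ℤ) - (r (v 1) : ℤ) + (r (v 10) : ℤ) - (r (v 2) : ℤ) - (r (v 3) : ℤ) + (r (v 11) : ℤ) + (r (v 12) : ℤ) - (r (v 4) : ℤ) - (r (v 5) : ℤ) + (r (v 13) : ℤ) - (r (v 6) : ℤ) + (r (v 14) : ℤ) + (r (v 15) : ℤ) - (r (v 7) : ℤ) :=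
    four r h0 h3 (v 8) (v 9) (v 10) (v 12) (by decide)
  have w9 : 0 ≤ 0 + (r (v 1) : ℤ) + (r (v 3) : ℤ) - (r (v 2) : ℤ) + (r (v 5) : ℤ) - (r (v 4) : ℤ) - (r (v 6) : ℤ) + (r (v 7) : ℤ) + (r (v 8) : ℤ) - (r (v 9) : ℤ) - (r (v 11) : ℤ) + (r (v 10) : ℤ) - (r (v 13) : ℤ) + (r (v 12) : ℤ) + (r (v 14) : ℤ) - (r (v 15) : ℤ) :=
    four r h0 h3 (v 1) (v 3) (v 5) (v 8) (by decide)
  have w10 : 0 ≤ 0 + (r (v 2) : ℤ) + (r (v 3) : ℤ) - (r (v 1) : ℤ) + (r (v 6) : ℤ) - (r (v 4) : ℤ) - (r (v 5) : ℤ) + (r (v 7) : ℤ) + (r (v 8) : ℤ) - (r (v 10) : ℤ) - (r (v 11) : ℤ) + (r (v 9) : ℤ) - (r (v 14) : ℤ) + (r (v 12) : ℤ) + (r (v 13) : ℤ) - (r (v 15) : ℤ) :=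
    four r h0 h3 (v 2) (v 3) (v 6) (v 8) (by decide)
  have w11 : 0 ≤ 0 + (r (v 1) : ℤ) + (r (v 2) : ℤ) - (r (v 3) : ℤ) + (r (v 5) : ℤ) - (r (v 4) : ℤ) - (r (v 7) : ℤ) + (r (v 6) : ℤ) + (r (v 8) : ℤ) - (r (v 9) : ℤ) - (r (v 10) : ℤ) + (r (v 11) : ℤ) - (r (v 13) : ℤ) + (r (v 12) : ℤ) + (r (v 15) : ℤ) - (r (v 14) : ℤ) :=
    four r h0 h3 (v 1) (v 2) (v 5) (v 8) (by decide)
  have w12 : 0 ≤ 0 + (r (v 4) : ℤ) + (r (v 5) : ℤ) - (r (v 1) : ℤ) + (r (v 6) : ℤ) - (r (v 2) : ℤ) - (r (v 3) : ℤ) + (r (v 7) : ℤ) + (r (v 8) : ℤ) - (r (v 12) : ℤ) - (r (v 13) : ℤ) + (r (v 9) : ℤ) - (r (v 14) : ℤ) + (r (v 10) : ℤ) + (r (v 11) : ℤ) - (r (v 15) : ℤ) :=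
    four r h0 h3 (v 4) (v 5) (v 6) (v 8) (by decide)
  have w13 : 0 ≤ 0 + (r (v 1) : ℤ) + (r (v 3) : ℤ) - (r (v 2) : ℤ) + (r (v 4) : ℤ) - (r (v 5) : ℤ) - (r (v 7) : ℤ) + (r (v 6) : ℤ) + (r (v 8) : ℤ) - (r (v 9) : ℤ) - (r (v 11) : ℤ) + (r (v 10) : ℤ) - (r (v 12) : ℤ) + (r (v 13) : ℤ) + (r (v 15) : ℤ) - (r (v 14) : ℤ) :=
    four r h0 h3 (v 1) (v 3) (v 4) (v 8) (by decide)
  have w14 : 0 ≤ 0 + (r (v 2) : ℤ) + (r (v 3) : ℤ) - (r (v 1) : ℤ) + (r (v 4) : ℤ) - (r (v 6) : ℤ) - (r (v 7) : ℤ) + (r (v 5) : ℤ) + (r (v 8) : ℤ) - (r (v 10) : ℤ) - (r (v 11) : ℤ) + (r (v 9) : ℤ) - (r (v 12) : ℤ) + (r (v 14) : ℤ) + (r (v 15) : ℤ) - (r (v 13) : ℤ) :=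
    four r h0 h3 (v 2) (v 3) (v 4) (v 8) (by decide)
  have w15 : 0 ≤ 0 + (r (v 1) : ℤ) + (r (v 2) : ℤ) - (r (v 3) : ℤ) + (r (v 4) : ℤ) - (r (v 5) : ℤ) - (r (v 6) : ℤ) + (r (v 7) : ℤ) + (r (v 8) : ℤ) - (r (v 9) : ℤ) - (r (v 10) : ℤ) + (r (v 11) : ℤ) - (r (v 12) : ℤ) + (r (v 13) : ℤ) + (r (v 14) : ℤ) - (r (v 15) : ℤ) :=
    four r h0 h3 (v 1) (v 2) (v 4) (v 8) (by decide)
  have p0 : r (v 14) = r (v 1) + r (v 15) := h2 (v 1) (v 15) (by decide)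
  have p1 : r (v 9) = r (v 4) + r (v 13) := h2 (v 4) (v 13) (by decide)
  have p2 : r (v 3) = r (v 5) + r (v 6) := h2 (v 5) (v 6) (by decide)
  have p3 : r (v 2) = r (v 8) + r (v 10) := h2 (v 8) (v 10) (by decide)
  have p4 : r (v 7) = r (v 11) + r (v 12) := h2 (v 11) (v 12) (by decide)
  omega

end Pool.Agent.Results.MP_efcf90_co.Counter
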